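import Mathlib

/-!
Connections over a finitely presented group with values in an extension with finite kernel.
-/

namespace Run7.h276.FinExt

variable {G E : Type} [Group G] [Group E] (π : E →* G) {ι : Type} (φ : FreeGroup ι →* G)

/-- the alphabet: a lift of every generator -/
abbrev Alph : Type := ∀ i : ι, {e : E // π e = φ (FreeGroup.of i)}

/-- one step along the generator `i` -/
def step (x : G → Alph π φ) (i : ι) : Equiv.Perm (G × E) where
  toFun p := (φ (FreeGroup.of i) * p.1, (x p.1 i).1 * p.2)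
  invFun p := ((φ (FreeGroup.of i))⁻¹ * p.1, ((x ((φ (FreeGroup.of i))⁻¹ * p.1) i).1)⁻¹ * p.2)
  left_inv p := by simp
  right_inv p := by simp

/-- parallel transport -/
def act (x : G → Alph π φ) : FreeGroup ι →* Equiv.Perm (G × E) := FreeGroup.lift (step π φ x)

variable {π φ}

lemma act_of (x : G → Alph π φ) (i : ι) : act π φ x (FreeGroup.of i) = step π φ x i := by
  simp [act]

lemma act_inv_of (x : G → Alph π φ) (i : ι) (p : G × E) :
    act π φ x (FreeGroup.of i)⁻¹ p =
      ((φ (FreeGroup.of i))⁻¹ * p.1, ((x ((φ (FreeGroup.of i))⁻¹ * p.1) i).1)⁻¹ * p.2) := by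
  rw [map_inv, act_of]; rfl

lemma act_fst (x : G → Alph π φ) (w : FreeGroup ι) : ∀ p : G × E,
    (act π φ x w p).1 = φ w * p.1 := by
  induction w using FreeGroup.induction_on with
  | C1 => intro p; simp
  | of i => intro p; rw [act_of]; rfl
  | inv_of i _ => intro p; rw [act_inv_of]; simp
  | mul w₁ w₂ h₁ h₂ =>
    intro p
    rw [map_mul, Equiv.Perm.mul_apply, h₁, h₂, map_mul, mul_assoc]

lemma act_shift (x : G → Alph π φ) (g : G) (w : FreeGroup ι) : ∀ (h : G) (e : E),
    act π φ x w (h * g, e) =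
      ((act π φ (fun k => x (k * g)) w (h, e)).1 * g, (act π φ (fun k => x (k * g)) w (h, e)).2) := by
  induction w using FreeGroup.induction_on with
  | C1 => intro h e; simp
  | of i =>
    intro h e
    rw [act_of, act_of]
    simp only [step, Equiv.coe_fn_mk, mul_assoc]
  | inv_of i _ =>
    intro h e
    rw [act_inv_of, act_inv_of]
    simp only [mul_assoc]
  | mul w₁ w₂ h₁ h₂ =>
    intro h e
    rw [map_mul, map_mul, Equiv.Perm.mul_apply, Equiv.Perm.mul_apply, h₂ h e]
    rw [h₁]

lemma act_local (w : FreeGroup ι) : ∃ T : Finset G, ∀ (x x' : G → Alph π φ) (g : G),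
    (∀ t ∈ T, x (t * g) = x' (t * g)) → ∀ e : E, act π φ x w (g, e) = act π φ x' w (g, e) := by
  classical
  induction w using FreeGroup.induction_on with
  | C1 => exact ⟨∅, fun x x' g _ e => by simp⟩
  | of i =>
    refine ⟨{1}, fun x x' g h e => ?_⟩
    have h1 := h 1 (by simp)
    rw [one_mul] at h1
    rw [act_of, act_of]
    simp only [step, Equiv.coe_fn_mk, h1]
  | inv_of i _ =>
    refine ⟨{(φ (FreeGroup.of i))⁻¹}, fun x x' g h e => ?_⟩
    have h1 := h _ (Finset.mem_singleton_self _)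
    rw [act_inv_of, act_inv_of]
    simp only [h1]
  | mul w₁ w₂ h₁ h₂ =>
    obtain ⟨T₁, h₁⟩ := h₁
    obtain ⟨T₂, h₂⟩ := h₂
    refine ⟨T₂ ∪ T₁.image (fun t => t * φ w₂), fun x x' g h e => ?_⟩
    rw [map_mul, map_mul, Equiv.Perm.mul_apply, Equiv.Perm.mul_apply,
      h₂ x x' g (fun t ht => h t (Finset.mem_union_left _ ht)) e]
    have hf : act π φ x' w₂ (g, e) = (φ w₂ * g, (act π φ x' w₂ (g, e)).2) :=
      Prod.ext (act_fst x' w₂ (g, e)) rfl
    rw [hf]
    apply h₁
    intro t ht
    rw [← mul_assoc]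
    exact h _ (Finset.mem_union_right _ (Finset.mem_image_of_mem _ ht))

lemma act_lift (x : G → Alph π φ) (w : FreeGroup ι) : ∀ p : G × E, π p.2 = p.1 →
    π (act π φ x w p).2 = (act π φ x w p).1 := by
  induction w using FreeGroup.induction_on with
  | C1 => intro p hp; simpa using hp
  | of i =>
    intro p hp
    rw [act_of]
    simp only [step, Equiv.coe_fn_mk, map_mul, hp, (x p.1 i).2]
  | inv_of i _ =>
    intro p hp
    rw [act_inv_of]
    simp only [map_mul, map_inv, hp, (x _ i).2]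
  | mul w₁ w₂ h₁ h₂ =>
    intro p hp
    rw [map_mul, Equiv.Perm.mul_apply]
    exact h₁ _ (h₂ p hp)

/-- the connection of a section -/
def conn (σ : G → E) (hσ : ∀ g, π (σ g) = g) : G → Alph π φ := fun g i =>
  ⟨σ (φ (FreeGroup.of i) * g) * (σ g)⁻¹, by simp [hσ]⟩

lemma act_conn (σ : G → E) (hσ : ∀ g, π (σ g) = g) (w : FreeGroup ι) : ∀ (g : G) (c : E),
    act π φ (conn σ hσ) w (g, σ g * c) = (φ w * g, σ (φ w * g) * c) := by
  induction w using FreeGroup.induction_on with
  | C1 => intro g c; simp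
  | of i =>
    intro g c
    rw [act_of]
    simp only [step, Equiv.coe_fn_mk, conn]
    simp [mul_assoc]
  | inv_of i _ =>
    intro g c
    rw [act_inv_of]
    simp only [conn]
    simp [mul_assoc]
  | mul w₁ w₂ h₁ h₂ =>
    intro g c
    rw [map_mul, Equiv.Perm.mul_apply, h₂, h₁, map_mul, mul_assoc]

/-- the subshift: all relators have trivial holonomy -/
def X (π : E →* G) (φ : FreeGroup ι →* G) (R : Set (FreeGroup ι)) : Set (G → Alph π φ) :=
  {x | ∀ r ∈ R, ∀ (g : G) (e : E), act π φ x r (g, e) = (g, e)}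

lemma conn_mem {R : Set (FreeGroup ι)} (hR : ∀ r ∈ R, φ r = 1) (σ : G → E)
    (hσ : ∀ g, π (σ g) = g) : conn σ hσ ∈ X π φ R := by
  intro r hr g e
  have := act_conn (φ := φ) σ hσ r g ((σ g)⁻¹ * e)
  simpa [hR r hr] using this

lemma exists_conn {R : Set (FreeGroup ι)} (hφ : Function.Surjective φ)
    (hR : Subgroup.normalClosure R = φ.ker) {x : G → Alph π φ} (hx : x ∈ X π φ R) :
    ∃ (σ : G → E) (hσ : ∀ g, π (σ g) = g), conn σ hσ = x := by
  have hker : ∀ w, φ w = 1 → act π φ x w = 1 := by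
    intro w hw
    have h1 : Subgroup.normalClosure R ≤ (act π φ x).ker := by
      apply Subgroup.normalClosure_le_normal
      intro r hr
      rw [SetLike.mem_coe, MonoidHom.mem_ker]
      ext1 p
      exact hx r hr p.1 p.2
    exact h1 (by rw [hR]; exact hw)
  have hwd : ∀ w w', φ w = φ w' → act π φ x w = act π φ x w' := by
    intro w w' h
    have := hker (w * w'⁻¹) (by rw [map_mul, map_inv, h, mul_inv_cancel])
    rw [map_mul, map_inv] at this
    exact mul_inv_eq_one.mp this
  let pre : G → FreeGroup ι := Function.surjInv hφ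
  have hpre : ∀ g, φ (pre g) = g := Function.surjInv_eq hφ
  let σ : G → E := fun g => (act π φ x (pre g) (1, 1)).2
  have hfst : ∀ g, act π φ x (pre g) (1, 1) = (g, σ g) := fun g =>
    Prod.ext (by rw [act_fst, hpre]; simp) rfl
  have hσ : ∀ g, π (σ g) = g := by
    intro g
    have := act_lift x (pre g) (1, 1) (by simp)
    rw [hfst] at this
    exact this
  refine ⟨σ, hσ, ?_⟩
  funext g i
  apply Subtype.ext
  change σ (φ (FreeGroup.of i) * g) * (σ g)⁻¹ = (x g i).1
  rw [mul_inv_eq_iff_eq_mul]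
  have h1 : act π φ x (pre (φ (FreeGroup.of i) * g)) (1, 1) =
      act π φ x (FreeGroup.of i * pre g) (1, 1) := by
    rw [hwd (pre (φ (FreeGroup.of i) * g)) (FreeGroup.of i * pre g) (by rw [hpre, map_mul, hpre])]
  rw [hfst, map_mul, Equiv.Perm.mul_apply, hfst, act_of] at h1
  exact congrArg Prod.snd h1

end Run7.h276.FinExt
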