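import Pool.Agent.Run7.h276.FinExt.Basic

/-!
The subshift of flat connections: finite type, strong irreducibility, periodic points.
-/

namespace Run7.h276.FinExt

variable {G E : Type} [Group G] [Group E] {π : E →* G} {ι : Type} {φ : FreeGroup ι →* G}

lemma isSFT (R : Set (FreeGroup ι)) (hfin : R.Finite) (hR : ∀ r ∈ R, φ r = 1) :
    ∃ (S : Finset G) (P : Set (S → Alph π φ)),
      X π φ R = {x | ∀ g : G, (fun s : S => x (s.1 * g)) ∈ P} := by
  classical
  choose T hT using fun w : FreeGroup ι => act_local (π := π) (φ := φ) w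
  let S : Finset G := hfin.toFinset.biUnion T
  refine ⟨S, {p | ∃ x' : G → Alph π φ, (∀ s : S, x' s.1 = p s) ∧
    ∀ r ∈ R, ∀ e : E, act π φ x' r (1, e) = (1, e)}, ?_⟩
  ext x
  simp only [Set.mem_setOf_eq, X]
  constructor
  · intro hx g
    refine ⟨fun k => x (k * g), fun s => rfl, fun r hr e => ?_⟩
    have h1 := act_shift x g r 1 e
    rw [one_mul, hx r hr g e] at h1
    have h2 := congrArg Prod.fst h1
    have h3 := congrArg Prod.snd h1
    simp only at h2 h3
    refine Prod.ext ?_ h3.symm
    simpa using h2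
  · intro hx r hr g e
    obtain ⟨x', hx', hr'⟩ := hx g
    have h1 := act_shift x g r 1 e
    rw [one_mul] at h1
    have h2 : act π φ (fun k => x (k * g)) r (1, e) = act π φ x' r (1, e) := by
      apply hT r
      intro t ht
      have htS : t ∈ S := Finset.mem_biUnion.mpr ⟨r, hfin.mem_toFinset.mpr hr, ht⟩
      have := hx' ⟨t, htS⟩
      simp only at this
      rw [mul_one, this]
    rw [h1, h2, hr' r hr e]
    simp

lemma stronglyIrreducible [Finite ι] {R : Set (FreeGroup ι)} (hφ : Function.Surjective φ)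
    (hR : Subgroup.normalClosure R = φ.ker) :
    ∃ Δ : Finset G, ∀ Ω₁ Ω₂ : Finset G,
        (∀ d ∈ Δ, ∀ w ∈ Ω₁, d * w ∉ Ω₂) →
        ∀ x₁ ∈ X π φ R, ∀ x₂ ∈ X π φ R, ∃ z ∈ X π φ R,
          (∀ w ∈ Ω₁, z w = x₁ w) ∧ (∀ w ∈ Ω₂, z w = x₂ w) := by
  classical
  have : Fintype ι := Fintype.ofFinite ι
  let B : Finset G := insert 1 (Finset.univ.image fun i => φ (FreeGroup.of i))
  have h1B : (1 : G) ∈ B := Finset.mem_insert_self _ _
  have hiB : ∀ i, φ (FreeGroup.of i) ∈ B := fun i =>
    Finset.mem_insert_of_mem (Finset.mem_image_of_mem _ (Finset.mem_univ i))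
  refine ⟨(B ×ˢ B).image fun p => p.2⁻¹ * p.1, fun Ω₁ Ω₂ hd x₁ hx₁ x₂ hx₂ => ?_⟩
  have hRk : ∀ r ∈ R, φ r = 1 := by
    intro r hr
    have : r ∈ Subgroup.normalClosure R := Subgroup.subset_normalClosure hr
    rw [hR] at this
    exact this
  obtain ⟨σ₁, hσ₁, rfl⟩ := exists_conn hφ hR hx₁
  obtain ⟨σ₂, hσ₂, rfl⟩ := exists_conn hφ hR hx₂
  let U : Set G := {g | ∃ u ∈ B, ∃ w ∈ Ω₁, g = u * w}
  have hdis : ∀ v ∈ B, ∀ w ∈ Ω₂, v * w ∉ U := by
    rintro v hv w hw ⟨u, hu, w₁, hw₁, h⟩
    refine hd (v⁻¹ * u) (Finset.mem_image.mpr ⟨(u, v), Finset.mem_product.mpr ⟨hu, hv⟩, rfl⟩)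
      w₁ hw₁ ?_
    rw [mul_assoc, ← h, inv_mul_cancel_left]
    exact hw
  let σ : G → E := fun g => if g ∈ U then σ₁ g else σ₂ g
  have hσ : ∀ g, π (σ g) = g := by
    intro g
    simp only [σ]
    split_ifs
    · exact hσ₁ g
    · exact hσ₂ g
  refine ⟨conn σ hσ, conn_mem hRk σ hσ, ?_, ?_⟩
  · intro w hw
    funext i
    apply Subtype.ext
    have h1 : w ∈ U := ⟨1, h1B, w, hw, (one_mul w).symm⟩
    have h2 : φ (FreeGroup.of i) * w ∈ U := ⟨_, hiB i, w, hw, rfl⟩
    simp only [conn, σ, if_pos h1, if_pos h2]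
  · intro w hw
    funext i
    apply Subtype.ext
    have h1 : w ∉ U := by
      have := hdis 1 h1B w hw
      rwa [one_mul] at this
    have h2 : φ (FreeGroup.of i) * w ∉ U := hdis _ (hiB i) w hw
    simp only [conn, σ, if_neg h1, if_neg h2]

/-- two sections with the same connection and the same value at `1` agree -/
lemma conn_inj (hφ : Function.Surjective φ) {σ τ : G → E} (hσ : ∀ g, π (σ g) = g)
    (hτ : ∀ g, π (τ g) = g) (h : conn (φ := φ) σ hσ = conn τ hτ) (h1 : σ 1 = τ 1) : σ = τ := by
  have key : ∀ w : FreeGroup ι, σ (φ w) = τ (φ w) := by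
    intro w
    have h2 := act_conn (φ := φ) σ hσ w 1 1
    have h3 := act_conn (φ := φ) τ hτ w 1 1
    rw [h, h1, h3] at h2
    have := congrArg Prod.snd h2
    simpa using this.symm
  funext g
  obtain ⟨w, rfl⟩ := hφ g
  exact key w

lemma periodic_iff [Finite ι] {R : Set (FreeGroup ι)} (hφ : Function.Surjective φ)
    (hR : Subgroup.normalClosure R = φ.ker) (hπ : Function.Surjective π) (hfin : Finite π.ker) :
    (∃ y ∈ X π φ R, (Set.range (fun g : G => fun h : G => y (h * g))).Finite) ↔
      ∃ H : Subgroup E, H.FiniteIndex ∧ H ⊓ π.ker = ⊥ := by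
  classical
  have hRk : ∀ r ∈ R, φ r = 1 := by
    intro r hr
    have : r ∈ Subgroup.normalClosure R := Subgroup.subset_normalClosure hr
    rw [hR] at this
    exact this
  constructor
  · rintro ⟨y, hy, hyfin⟩
    obtain ⟨σ, hσ, rfl⟩ := exists_conn hφ hR hy
    -- the translates of the section
    let T : E → G → E := fun e h => σ (h * π e) * e⁻¹
    have hT : ∀ e g, π (T e g) = g := by
      intro e g
      simp [T, hσ]
    have hTc : ∀ e, conn (φ := φ) (T e) (hT e) = fun h => conn (φ := φ) σ hσ (h * π e) := by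
      intro e
      funext h i
      apply Subtype.ext
      simp [T, conn, mul_assoc]
    let H : Subgroup E :=
      { carrier := {e | ∀ h, σ (h * π e) = σ h * e}
        one_mem' := fun h => by simp
        mul_mem' := by
          intro a b ha hb h
          simp only [Set.mem_setOf_eq] at ha hb
          rw [map_mul, ← mul_assoc, hb, ha, mul_assoc]
        inv_mem' := by
          intro a ha h
          simp only [Set.mem_setOf_eq] at ha
          have := ha (h * (π a)⁻¹)
          rw [inv_mul_cancel_right] at this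
          rw [map_inv, this, mul_inv_cancel_right] }
    have hmem : ∀ e, e ∈ H ↔ ∀ h, σ (h * π e) = σ h * e := fun e => Iff.rfl
    refine ⟨H, ?_, ?_⟩
    · -- finite index
      have hker : ∀ e, T e 1 ∈ π.ker := fun e => by
        rw [MonoidHom.mem_ker, hT]
      let F : E → (Set.range (fun g : G => fun h : G => conn (φ := φ) σ hσ (h * g))) × π.ker :=
        fun e => (⟨fun h => conn (φ := φ) σ hσ (h * π e), ⟨π e, rfl⟩⟩, ⟨T e 1, hker e⟩)
      have : Finite (Set.range (fun g : G => fun h : G => conn (φ := φ) σ hσ (h * g))) :=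
        hyfin.to_subtype
      have hF : ∀ a b, F a = F b → a⁻¹ * b ∈ H := by
        intro a b hab
        have h1 : (fun h => conn (φ := φ) σ hσ (h * π a)) = fun h => conn (φ := φ) σ hσ (h * π b) := by
          have := congrArg (fun p => (p.1 : G → Alph π φ)) hab
          exact this
        have h2 : T a 1 = T b 1 := by
          have := congrArg (fun p => (p.2 : E)) hab
          exact this
        have h3 : T a = T b := conn_inj hφ (hT a) (hT b) (by rw [hTc, hTc, h1]) h2
        rw [hmem]
        intro h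
        have h4 := congrFun h3 (h * (π a)⁻¹)
        simp only [T, inv_mul_cancel_right] at h4
        rw [map_mul, map_inv, ← mul_assoc, ← mul_assoc, h4]
        simp
      have hq : Finite (E ⧸ H) := by
        have hs : ∀ q : E ⧸ H, ∃ e : E, (e : E ⧸ H) = q := fun q => QuotientGroup.mk_surjective q
        choose rep hrep using hs
        refine Finite.of_injective (fun q => F (rep q)) ?_
        intro q q' hqq
        have := hF _ _ hqq
        rw [← hrep q, ← hrep q']
        exact QuotientGroup.eq.mpr this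
      exact Subgroup.finiteIndex_of_finite_quotient
    · rw [eq_bot_iff]
      rintro e ⟨he1, he2⟩
      have h1 := he1 1
      have h2 : π e = 1 := he2
      rw [h2] at h1
      simp only [mul_one] at h1
      rw [Subgroup.mem_bot]
      have : σ 1 * e = σ 1 * 1 := by rw [mul_one]; exact h1.symm
      exact mul_left_cancel this
  · rintro ⟨H, hH, hHk⟩
    have hinj : ∀ a ∈ H, ∀ b ∈ H, π a = π b → a = b := by
      intro a ha b hb hab
      have h1 : a⁻¹ * b ∈ H ⊓ π.ker := by
        refine ⟨H.mul_mem (H.inv_mem ha) hb, ?_⟩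
        change π (a⁻¹ * b) = 1
        rw [map_mul, map_inv, hab, inv_mul_cancel]
      rw [hHk, Subgroup.mem_bot] at h1
      exact inv_mul_eq_one.mp h1
    let K : Subgroup G := H.map π
    have hK : K.FiniteIndex := by
      have : K.index ≠ 0 := by
        have h1 : K.index ∣ H.index := Subgroup.index_map_dvd H hπ
        intro h0
        rw [h0, zero_dvd_iff] at h1
        exact hH.index_ne_zero h1
      exact ⟨this⟩
    -- representatives
    let t : G → G := fun g => Quotient.out (QuotientGroup.mk g : G ⧸ K)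
    have ht : ∀ g, (t g)⁻¹ * g ∈ K := by
      intro g
      rw [← QuotientGroup.eq]
      exact Quotient.out_eq _
    have htk : ∀ g, ∀ k ∈ K, t (g * k) = t g := by
      intro g k hk
      simp only [t]
      congr 1
      rw [QuotientGroup.eq]
      simpa using K.inv_mem hk
    choose e he using fun g => (Subgroup.mem_map.mp (ht g))
    let s0 : G → E := Function.surjInv hπ
    have hs0 : ∀ g, π (s0 g) = g := Function.surjInv_eq hπ
    let σ : G → E := fun g => s0 (t g) * e g
    have hσ : ∀ g, π (σ g) = g := by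
      intro g
      simp only [σ, map_mul, hs0, (he g).2]
      group
    have hσH : ∀ g, ∀ a ∈ H, σ (g * π a) = σ g * a := by
      intro g a ha
      have hk : π a ∈ K := Subgroup.mem_map_of_mem π ha
      simp only [σ, htk g _ hk, mul_assoc]
      congr 1
      apply hinj _ (he _).1 _ (H.mul_mem (he g).1 ha)
      rw [(he _).2, htk g _ hk, map_mul, (he g).2, mul_assoc]
    refine ⟨conn σ hσ, conn_mem hRk σ hσ, ?_⟩
    have hinv : ∀ g, ∀ k ∈ K, (fun h => conn (φ := φ) σ hσ (h * (g * k))) =
        fun h => conn (φ := φ) σ hσ (h * g) := by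
      intro g k hk
      obtain ⟨a, ha, rfl⟩ := Subgroup.mem_map.mp hk
      funext h i
      apply Subtype.ext
      simp only [conn]
      rw [← mul_assoc h, ← mul_assoc (φ _), hσH _ a ha, hσH _ a ha]
      group
    have hq : Finite (G ⧸ K) := Subgroup.finite_quotient_of_finiteIndex
    refine (Set.finite_range (fun q : G ⧸ K =>
      fun h : G => conn (φ := φ) σ hσ (h * Quotient.out q))).subset ?_
    rintro _ ⟨g, rfl⟩
    refine ⟨QuotientGroup.mk g, ?_⟩
    have h1 := hinv (t g) ((t g)⁻¹ * g) (ht g)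
    rw [mul_inv_cancel_left] at h1
    exact h1.symm

end Run7.h276.FinExt
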